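import Pool.Agent.H343.AN.StF

set_option autoImplicit false
set_option linter.unusedSectionVars false

/-! # One step of the construction for quotients of a fixed group (project AN of helper343, part F5) -/

namespace Pool.Agent.H216.AN.F5

open Pool.Agent.TH68 Pool.Agent.Helper97.Hyp Pool.Agent.H343.AN

section col

variable {X Y : Type*} [PseudoMetricSpace X] [PseudoMetricSpace Y]

/-- colourings pull back along distance preserving maps -/
lemma col_pull {f : X → Y} (hf : ∀ a b, dist a b = dist (f a) (f b)) {P : Set X} {P' : Set Y}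
    (hP : ∀ x ∈ P, f x ∈ P') {k : ℕ} {s D : ℝ} (h : Col P' k s D) : Col P k s D := by
  obtain ⟨c, hc⟩ := h
  refine ⟨fun x => c (f x), fun x y hxy => ?_⟩
  rw [hf]
  apply hc
  induction hxy with
  | refl => exact Relation.ReflTransGen.refl
  | tail _ h ih =>
    obtain ⟨h1, h2, h3, h4⟩ := h
    exact ih.tail ⟨hP _ h1, hP _ h2, h3, by rw [← hf]; exact h4⟩

end col

section equiv

variable {G H : Type} [Group G] [Group H]

/-- the isometry -/
def tf (W : WNorm G) (e : H ≃* G) (a : Pt (W.transport e)) : Pt W := pt W (e a.out)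

lemma tf_dist (W : WNorm G) (e : H ≃* G) (a b : Pt (W.transport e)) :
    dist a b = dist (tf W e a) (tf W e b) := by
  unfold tf
  rw [dist_def, dist_def, out_pt, out_pt]
  change (W.ℓ (e (a.out⁻¹ * b.out)) : ℝ) = _
  rw [map_mul, map_inv]

lemma tf_one (W : WNorm G) (e : H ≃* G) : tf W e (pt _ 1) = pt W 1 := by
  unfold tf
  rw [out_pt, map_one]

lemma ghyp_transport {W : WNorm G} (e : H ≃* G) {δ : ℝ} (h : GHyp (Pt W) δ) :
    GHyp (Pt (W.transport e)) δ := by
  intro x y z w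
  simp only [tf_dist W e]
  exact h _ _ _ _

lemma acol_transport {W : WNorm G} (e : H ≃* G) {σ C : ℝ} (h : ACol W σ C) :
    ACol (W.transport e) σ C := by
  intro T hT a
  refine col_pull (tf_dist W e) ?_ (h T hT a)
  rintro x ⟨h1, h2⟩
  rw [tf_dist W e, tf_one] at h1 h2
  exact ⟨h1, h2⟩

lemma cls_transport {W : WNorm G} (e : H ≃* G) (h : Cls G W) : Cls H (W.transport e) where
  hyp := by
    obtain ⟨δ, hδ⟩ := h.hyp
    exact ⟨δ, ghyp_transport e hδ⟩
  kgrp := h.kgrp.of_equiv e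
  odd x := by
    rw [← MulEquiv.orderOf_eq e x]
    exact h.odd _
  ac := by
    obtain ⟨σ, hσ⟩ := h.ac
    exact ⟨σ, acol_transport e hσ⟩

end equiv

/-- the quotient of the quotient -/
lemma exists_equiv {Γ : Type} [Group Γ] (K : Subgroup Γ) [K.Normal] (N : Subgroup (Γ ⧸ K))
    [N.Normal] : ∃ e : (Γ ⧸ St.pull K N) ≃* ((Γ ⧸ K) ⧸ N),
      ∀ x : Γ, e (x : Γ ⧸ St.pull K N) = ((x : Γ ⧸ K) : (Γ ⧸ K) ⧸ N) := by
  have hs : Function.Surjective ((QuotientGroup.mk' N).comp (QuotientGroup.mk' K)) :=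
    (QuotientGroup.mk'_surjective N).comp (QuotientGroup.mk'_surjective K)
  have hk : St.pull K N = ((QuotientGroup.mk' N).comp (QuotientGroup.mk' K)).ker := by
    ext x
    rw [St.mem_pull, MonoidHom.mem_ker]
    exact (QuotientGroup.eq_one_iff _).symm
  exact ⟨QuotientGroup.liftEquiv _ hs hk, fun x => rfl⟩

lemma acol_mono {G : Type} [Group G] {W : WNorm G} {σ C C' : ℝ} (hC : C ≤ C') (h : ACol W σ C) :
    ACol W (max σ 0) C' := by
  intro T hT a
  obtain ⟨c, hc⟩ := h T ((le_max_left _ _).trans hT) a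
  refine ⟨c, fun x y hxy => (hc x y hxy).trans ?_⟩
  exact mul_le_mul_of_nonneg_right hC ((le_max_right _ _).trans hT)

theorem f5 (h2 : S_f2) : S_f5 := by
  intro Γ _ W S x
  by_cases hx : IsOfFinOrder (x : Γ ⧸ S.K)
  · obtain ⟨σ, hσ⟩ := S.cls.ac
    refine ⟨max σ 0, fun R' => ⟨S, le_rfl, ?_, fun n hn hn' => absurd hn hn',
      acol_mono (by norm_num) hσ⟩⟩
    obtain ⟨k, hk, hk1⟩ := hx.exists_pow_eq_one
    rw [← QuotientGroup.mk_pow, mk_eq_one] at hk1
    exact ⟨k, hk, hk1⟩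
  · obtain ⟨τ, hτ⟩ := h2 S.V S.cls (x : Γ ⧸ S.K) hx
    refine ⟨τ, fun R' => ?_⟩
    obtain ⟨k, hk, N, hN, hxN, hlen, W', hQ, hcls, hac⟩ := hτ R'
    obtain ⟨e, he⟩ := exists_equiv S.K N
    refine ⟨⟨St.pull S.K N, St.pull_normal _ _, W'.transport e, ?_, cls_transport e hcls⟩, ?_,
      ⟨k, hk, ?_⟩, ?_, acol_transport e hac⟩
    · constructor
      · intro g
        change W'.ℓ (e (g : Γ ⧸ St.pull S.K N)) ≤ W.ℓ g
        rw [he]
        exact (hQ.le _).trans (S.quo.le g)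
      · intro g
        change ∃ n ∈ St.pull S.K N, W.ℓ (g * n) = W'.ℓ (e (g : Γ ⧸ St.pull S.K N))
        rw [he]
        obtain ⟨n', hn', h1⟩ := hQ.ex (g : Γ ⧸ S.K)
        obtain ⟨n₁, rfl⟩ := QuotientGroup.mk_surjective n'
        obtain ⟨n₂, hn₂, h3⟩ := S.quo.ex (g * n₁)
        refine ⟨n₁ * n₂, ?_, ?_⟩
        · rw [St.mem_pull, QuotientGroup.mk_mul, mk_eq_one.mpr hn₂, mul_one]
          exact hn'
        · rw [← mul_assoc, h3, QuotientGroup.mk_mul, h1]
    · intro y hy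
      rw [St.mem_pull, mk_eq_one.mpr hy]
      exact one_mem _
    · change x ^ k ∈ St.pull S.K N
      rw [St.mem_pull, QuotientGroup.mk_pow]
      exact hxN
    · intro n hn hn'
      refine hlen _ hn ?_
      rw [Ne, mk_eq_one]
      exact hn'

end Pool.Agent.H216.AN.F5
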